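import Pool.Agent.W5h26.AO.Eul
import Pool.Agent.W5h26.AO.Box
import Pool.Agent.W5h26.AO.Chr
import Pool.Agent.W5h26.AO.Gen

/-!
# The average order at the central point of the L-functions of the Jacobians through given points

Let `K` be a number field, `g ≥ 1`, and let `(α_j, y_j)`, `1 ≤ j ≤ r`, `r ≤ 2 g - 1`, be integral points
of the plane over `K`, with different `α_j` and `y_j ≠ 0`. We consider all curves `y² = f(x)` of genus
`g` through these points, `f` monic of degree `2 g + 1` over the integers of `K`: `f` runs over a lattice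
`𝓕` of rank `n = 2 g + 1 - r` over the integers of `K`.

* The Jacobian of the generic member (over `E(w, ξ_1, …, ξ_{n-1})`, for every field `E` containing `K`) has
  a free Mordell-Weil group of rank `r`.
* The mean value over `f ∈ 𝓕` of the logarithmic derivative `L'/L(s, J_f)`, which exists for
  `Re s > 3/2` (for every Følner sequence in the lattice), continues to a meromorphic function in
  `Re s > 5/6`, beyond the central point `s = 1`. In `Re s ≥ 1` its only singularity is at `s = 1`; it is a
  simple pole of residue `r + 1/2`.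

So, although for a single curve over a general number field no continuation to the left of `Re s = 3/2` is
known, the mean value over the family has one, and the average order of vanishing at the central point
(in this sense) is the rank of the generic Jacobian plus one half, as it should be by the conjecture of
Birch and Swinnerton-Dyer if the rank of a member is as often `r` as `r + 1`.

Proof. The averages of the traces of the Frobenius and of its square over the curves through the given
points modulo `v` are `- r + O(q_v ^ (-1/2))` and `- q_v + O(1)`; the others are bounded by Weil's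
theorem, and the density of the curves which are singular modulo `v` is `O(1/q_v)`. So the mean value is
`r D(s) + D(2 s - 1)`, `D(s) = ∑ log q_v / q_v ^ s`, plus a holomorphic function in `Re s > 5/6`. The rank
of the generic Jacobian is a theorem of the starting files (`Pool/Agent/Y707/PC`).
-/

set_option autoImplicit false

namespace Pool.Agent.Results.MP_1d384c_nt.AverageOrder

open NumberField IsDedekindDomain Polynomial Filter Topology

section family

/-- The polynomial `a + (h_0 + h_1 X + … + h_{n-1} X ^ (n-1)) ∏ (X - α_j)`. -/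
noncomputable def member {R : Type} [CommRing R] {r n : ℕ} (a : R[X]) (α : Fin r → R)
    (h : Fin n → R) : R[X] :=
  a + (∑ i : Fin n, C (h i) * X ^ (i : ℕ)) * ∏ j, (X - C (α j))

/-- The map from the integers of `K` to the field of rational functions in `w` over `M`. -/
noncomputable def constants (K E M : Type) [Field K] [Field E] [Algebra K E] [Field M]
    [Algebra E M] : 𝓞 K →+* RatFunc M :=
  (algebraMap M (RatFunc M)).comp
    ((algebraMap E M).comp ((algebraMap K E).comp (algebraMap (𝓞 K) K)))

/-- The generic member of the family: `a + (w + ξ_1 X + … + ξ_{m+1} X ^ (m+1)) ∏ (X - α_j)` over the field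
`M(w)`. -/
noncomputable def generic {K : Type} [Field K] {r m : ℕ} (a : (𝓞 K)[X]) (α : Fin r → 𝓞 K)
    (E : Type) [Field E] [Algebra K E] {M : Type} [Field M] [Algebra E M]
    (ξ : Fin (m + 1) → M) : (RatFunc M)[X] :=
  member (a.map (constants K E M)) (fun j => constants K E M (α j))
    (Fin.cons RatFunc.X (fun i => algebraMap M (RatFunc M) (ξ i)) : Fin (m + 2) → RatFunc M)

/-- `Y ^ 2 = f(X)` is a smooth curve of genus `g`, with one point at infinity: `f` is monic and
separable of degree `2 g + 1`. -/
def IsSmoothCurve {L : Type} [Field L] (g : ℕ) (f : L[X]) : Prop :=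
  f.Monic ∧ f.natDegree = 2 * g + 1 ∧ f.Separable

/-- The class group of the ring `L[X, Y] / (Y ^ 2 - f(X))` is a free abelian group of rank `n`.
(For a smooth curve with one point at infinity this is the group of the rational points of the
Jacobian.) -/
def JacobianFreeOfRank {L : Type} [Field L] (f : L[X]) (n : ℕ) : Prop :=
  ∃ _ : IsDomain (AdjoinRoot (X ^ 2 - C f : L[X][X])),
    Module.Free ℤ (Additive (ClassGroup (AdjoinRoot (X ^ 2 - C f : L[X][X])))) ∧
    Module.Finite ℤ (Additive (ClassGroup (AdjoinRoot (X ^ 2 - C f : L[X][X])))) ∧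
    Module.finrank ℤ (Additive (ClassGroup (AdjoinRoot (X ^ 2 - C f : L[X][X])))) = n

end family

section analytic

variable {K : Type} [Field K] [NumberField K]

/-- The residue field of the prime `v`. -/
noncomputable instance residueField (v : HeightOneSpectrum (𝓞 K)) : Field (𝓞 K ⧸ v.asIdeal) :=
  Pool.Agent.R409.RA.fieldQuot v

/-- The curve `y² = f(x)` has good reduction at `v` in this equation: the residue characteristic is odd
and `f` is separable modulo `v`. -/
def IsGood (f : (𝓞 K)[X]) (v : HeightOneSpectrum (𝓞 K)) : Prop :=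
  (2 : 𝓞 K) ∉ v.asIdeal ∧ (f.map (Ideal.Quotient.mk v.asIdeal)).Separable

/-- The number of the points with coordinates in the field with `q_v ^ m` elements of the affine curve
`y² = f(x)` over the residue field of `v`, which has `q_v` elements. -/
noncomputable def points (f : (𝓞 K)[X]) (v : HeightOneSpectrum (𝓞 K)) (m : ℕ) : ℕ :=
  Nat.card {P : AlgebraicClosure (𝓞 K ⧸ v.asIdeal) × AlgebraicClosure (𝓞 K ⧸ v.asIdeal) //
    P.1 ^ (Ideal.absNorm v.asIdeal ^ m) = P.1 ∧ P.2 ^ (Ideal.absNorm v.asIdeal ^ m) = P.2 ∧
      P.2 ^ 2 = aeval P.1 (f.map (Ideal.Quotient.mk v.asIdeal))}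

/-- The trace of the `m`-th power of the Frobenius at `v` on the first cohomology of the curve. -/
noncomputable def trace (f : (𝓞 K)[X]) (v : HeightOneSpectrum (𝓞 K)) (m : ℕ) : ℤ :=
  (Ideal.absNorm v.asIdeal : ℤ) ^ m - points f v m

/-- The Euler factor `det(1 - Frob_v q_v^{-s})⁻¹ = exp(∑_{m ≥ 1} tr(Frob_v ^ m) q_v^{-m s} / m)`. -/
noncomputable def eulerFactor (f : (𝓞 K)[X]) (v : HeightOneSpectrum (𝓞 K)) (s : ℂ) : ℂ :=
  Complex.exp (∑' m : ℕ, (trace f v (m + 1) : ℂ) *
    ((Ideal.absNorm v.asIdeal : ℂ) ^ (-s)) ^ (m + 1) / (m + 1))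

/-- The L-function of the Jacobian of the curve `y² = f(x)`: the product of the Euler factors at the
primes of good reduction of this equation. -/
noncomputable def LFun (f : (𝓞 K)[X]) (s : ℂ) : ℂ :=
  ∏' v : {v : HeightOneSpectrum (𝓞 K) // IsGood f v}, eulerFactor f v.1 s

end analytic

section mean

open Classical in
/-- `F` is a Følner sequence of the abelian group `A`: a sequence of nonempty finite sets such that for
every `a` the proportion of the `x` in `F j` for which `x + a` is not in `F j` tends to `0`. -/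
def IsFolner {A : Type} [AddCommGroup A] (F : ℕ → Finset A) : Prop :=
  (∀ j, (F j).Nonempty) ∧ ∀ a : A, Tendsto (fun j =>
    (((F j).filter fun x => x + a ∉ F j).card : ℝ) / ((F j).card : ℝ)) atTop (𝓝 0)

/-- `μ` is the mean value of `φ`: the limit of the averages over `F j`, for every Følner sequence
`F`. -/
def IsMean {A : Type} [AddCommGroup A] (φ : A → ℂ) (μ : ℂ) : Prop :=
  ∀ F : ℕ → Finset A, IsFolner F →
    Tendsto (fun j => (∑ x ∈ F j, φ x) / ((F j).card : ℂ)) atTop (𝓝 μ)

end mean

/-- **The average order.** Let `K` be a number field, `n + 2 + r = 2 g + 1`, `a` a monic polynomial of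
degree `2 g + 1` over the integers of `K`, and `a(α_j) = y_j²`, `1 ≤ j ≤ r`, with different `α_j` and
with `y_j ≠ 0`.

(1) The polynomials `f_h = a + (h_0 + … + h_{n+1} X ^ (n+1)) ∏ (X - α_j)` are all the monic polynomials of
degree `2 g + 1` over the integers of `K` with `f(α_j) = y_j²` for all `j`.

(2) For every field `E ⊇ K` the curve `Y² = f_h(X)` over `E(w, ξ_1, …, ξ_{n+1})`, for the generic
`h = (w, ξ_1, …, ξ_{n+1})`, is smooth of genus `g`, and the group of the rational points of its Jacobian
is free of rank `r`.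

(3) There is a function `M` such that for `Re s > 3/2` the mean value of `L'/L(s, J_h)`, `J_h` the
Jacobian of `y² = f_h(x)`, over all `h` is `M(s)`. It is meromorphic in `Re s > 5/6`, analytic in
`Re s ≥ 1` except at `s = 1`, and has a simple pole with residue `r + 1/2` at `s = 1`.

(4) There are Følner sequences for the family. -/
theorem result (K : Type) [Field K] [NumberField K] (g r n : ℕ) (hn : n + 2 + r = 2 * g + 1)
    (a : (𝓞 K)[X]) (ha : a.Monic) (hd : a.natDegree = 2 * g + 1) (α y : Fin r → 𝓞 K)
    (hα : Function.Injective α) (hy : ∀ j, a.eval (α j) = y j ^ 2) (hy0 : ∀ j, y j ≠ 0) :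
    (∀ f : (𝓞 K)[X], (f.Monic ∧ f.natDegree = 2 * g + 1 ∧ ∀ j, f.eval (α j) = y j ^ 2) ↔
      ∃ h : Fin (n + 2) → 𝓞 K, f = member a α h) ∧
    (∀ (E : Type) [Field E] [Algebra K E] (M : Type) [Field M] [Algebra E M] (ξ : Fin (n + 1) → M),
      AlgebraicIndependent E ξ → IntermediateField.adjoin E (Set.range ξ) = ⊤ →
        IsSmoothCurve g (generic a α E ξ) ∧ JacobianFreeOfRank (generic a α E ξ) r) ∧
    (∃ M : ℂ → ℂ,
      (∀ s : ℂ, 3 / 2 < s.re →
        IsMean (fun h : Fin (n + 2) → 𝓞 K => logDeriv (LFun (member a α h)) s) (M s)) ∧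
      MeromorphicOn M {s | (5 / 6 : ℝ) < s.re} ∧
      (∀ s : ℂ, 1 ≤ s.re → s ≠ 1 → AnalyticAt ℂ M s) ∧
      ∃ H : ℂ → ℂ, AnalyticAt ℂ H 1 ∧ ∀ s, M s = (r + 1 / 2) / (s - 1) + H s) ∧
    ∃ F : ℕ → Finset (Fin (n + 2) → 𝓞 K), IsFolner F := by
  have hmem : ∀ h : Fin (n + 2) → 𝓞 K, member a α h = Pool.Agent.W5h26.AO.mem a α h := fun _ => rfl
  refine ⟨fun f => ?_, ?_, ?_, ?_⟩
  · have h1 := Pool.Agent.W5h26.AO.mem_iff (f := f) ha hd hn hα
    simp only [hy] at h1
    exact h1
  · intro E _ _ M _ _ ξ hξ htop
    have : CharZero E := charZero_of_injective_algebraMap (algebraMap K E).injective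
    let _ : Algebra (𝓞 K) E := ((algebraMap K E).comp (algebraMap (𝓞 K) K)).toAlgebra
    have hinj : Function.Injective (algebraMap (𝓞 K) E) :=
      (algebraMap K E).injective.comp (IsFractionRing.injective (𝓞 K) K)
    have : FaithfulSMul (𝓞 K) E := (faithfulSMul_iff_algebraMap_injective _ _).2 hinj
    obtain ⟨h1, h2, h3, h4⟩ := Pool.Agent.W5h26.AO.gen_class (E := E) (M := M) ha hd hn hα hy hy0
      hξ htop
    exact ⟨⟨h1, h2, h3⟩, h4⟩
  · obtain ⟨C, hC1, hC2⟩ := Pool.Agent.W5h26.AO.ev_asym ha hd hn hα hy hy0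
    obtain ⟨M, hM1, hM2, ⟨H, hH, hMH⟩, hM3⟩ := Pool.Agent.W5h26.AO.ser_cont
      (E := Pool.Agent.W5h26.AO.Ev a α (n + 2)) (B := 2 * g) (C := C) (r := r)
      (fun v m hm => Pool.Agent.W5h26.AO.ev_bd ha hd hn.le v hm) hC1 hC2
    refine ⟨M, fun s hs F hF => ?_, hM1, hM2, H, hH, fun s => ?_⟩
    · have hF' : Pool.Agent.W5h26.AO.IsFolner F := ⟨hF.1, hF.2⟩
      have h1 := Pool.Agent.W5h26.AO.mean_lim (α := α) ha hd hn.le hF' hs
      have h2 := h1.neg
      rw [(hM3 s hs).tsum_eq, neg_neg] at h2
      refine h2.congr fun j => ?_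
      show -Pool.Agent.W5h26.AO.mean _ _ = _
      unfold Pool.Agent.W5h26.AO.mean
      rw [← neg_div, ← Finset.sum_neg_distrib]
      congr 1
      refine Finset.sum_congr rfl fun h _ => ?_
      obtain ⟨e1, e2⟩ := Pool.Agent.W5h26.AO.mem_monic ha hd hn.le α h
      have h3 := Pool.Agent.W5h26.AO.logDeriv_eq (F := LFun (member a α h)) e1 e2
        (fun z hz => (Pool.Agent.W5h26.AO.euler e1 e2 hz).tprod_eq) hs
      exact h3.symm
    · rw [hMH]
      push_cast
      rfl
  · obtain ⟨F, hF⟩ := Pool.Agent.W5h26.AO.exists_folner (Fin (n + 2) → 𝓞 K)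
    exact ⟨F, hF.nonempty, hF.shift⟩

end Pool.Agent.Results.MP_1d384c_nt.AverageOrder
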