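import Pool.Agent.W5h93.EX.FunMain

/-!
# The conjecture of Birch and Swinnerton-Dyer over function fields and trilinear forms

For a smooth projective variety `X` over a finite field let `δ(X)` be the Laurent polynomial whose
coefficient at `c` is the order of the pole of the zeta function at `s = c` minus the rank of the group
of the algebraic cycles of codimension `c` modulo homological equivalence. It extends to an additive
invariant of all separated schemes of finite type over `𝔽_p` (Gillet and Soulé, Bondarko: the class of
the motive with compact supports in the Grothendieck group of the Chow motives with rational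
coefficients). It is zero for points and curves, and for a surface `V` it has only one coefficient,
`- ord_{s=1} ζ(V, s) - rank NS(V)`. If `V → C` is a fibration over a curve and `J` is the Jacobian of its
generic fibre, then this is `ord_{s=1} L(s, J) - rank J(K)`, `K = k(C)` (Artin, Tate). These properties
are the hypothesis `IsDefect`.

The conjecture of Birch and Swinnerton-Dyer for all abelian varieties over all global fields of
characteristic `p` is equivalent to `δ = 0` for the smooth affine cubic hypersurfaces
`T(x, y, z) = 1` over the prime field `𝔽_p`, of arbitrary dimension, where `T` is a trilinear form one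
of whose blocks of variables has at most four variables.
-/

set_option autoImplicit false

open CategoryTheory AlgebraicGeometry Pool.Agent.Y116.UV Pool.Agent.W5h93.EV Pool.Agent.W5h93.EX

universe w

namespace Pool.Agent.Results.MP_1d384c_nt.BlocksOfFourVariables

/-- **The conjecture of Birch and Swinnerton-Dyer in characteristic `p` and trilinear forms over
`𝔽_p` with a block of at most four variables.** -/
theorem result (p : ℕ) [Fact p.Prime] (D : BSDData.{w} p) (Q : Sch (ZMod p) → Prop)
    (hQ : IsClass Q) (hD : D.IsBSD Q) (δ : Sch (ZMod p) → ℤ → ℤ) (hδ : D.IsDefect Q δ) :
    (ForForms (IsZero δ) 4 → D.Conjecture) ∧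
    (ModelsIn Q 2 → (D.Conjecture ↔ ForForms (IsZero δ) 4)) := by
  have hB := bnd_additive hδ.additive
  refine ⟨fun h => (bsd_iff hD hδ).mpr fun X hX hd => dim_of_forms hB h X (hQ.ft hX) hd,
    fun hM => (bsd_iff hD hδ).trans (class_iff hB hQ hM)⟩

end Pool.Agent.Results.MP_1d384c_nt.BlocksOfFourVariables
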