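import Pool.Agent.W5h26.AV.Sys

/-!
# One-sided bounds for the products of Birch and Swinnerton-Dyer outside few integers, for abelian
varieties over number fields

Let `A` be an abelian variety of dimension `g` over a number field `K`, and
`P(n) = ∏ #A(k_v) / q_v ^ g` over the primes of good reduction with `q_v ≤ n`. By a theorem of Goldfeld
(Kuo and Murty, Conrad, Sheth in general) an asymptotic formula `P(n) ~ C (log n) ^ ρ` for all
`n` implies the Riemann hypothesis for `L(A, s)` and `ρ = ord_{s=1} L(A, s)`. Here one one-sided bound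
`P(n) ≤ C (log n) ^ ρ` is assumed, and only outside an exceptional set of integers:

* no growth of `L(A, s)` is assumed, the exceptional set has at most `X ^ (1 - l)` elements in `[X, 2 X]`.
  If `l > 1/4`, the bound implies the Riemann hypothesis and `ord_{s=1} L(A, s) ≤ ρ`. For all `l ≥ 0`,
  even if `P(n)` is only bounded by `exp (n ^ (θ + ε))`, there are no zeros with
  `Re s > 1 + max(θ, 1/2 - 2 l)`;
* if `L(A, s)` is of polynomial growth in a half-plane `Re s > 1 - η`, both hold for all `l > 0`, with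
  `θ` in place of `max(θ, 1/2 - 2 l)`.

The same for lower bounds and `ord_{s=1} L(A, s) ≥ ρ`, if there are no real zeros. So the upper bound
and the lower bound, with exponent `ρ = rank A(K)` and each outside its own exceptional set, imply
`ord_{s=1} L(A, s) = rank A(K)`.

Proof. `log P(n)` varies slowly: by at most `c (m - n) n ^ (-1/2)` between `n` and `m`. So a bound
outside the exceptional set gives the bound `n ^ (θ + ε) + c n ^ (1/2 - l)` for all `n`, and the measure of
the exceptional set in the variable `log n` decreases like `n ^ (-l)`. The positive part of `log P` then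
has a Laplace transform to the right of `max(θ, 1/2 - 2 l)`, and Landau's lemma applies. Under
polynomial growth the mean square of the shifted partial sums to the right of all zeros replaces
the trivial bound, and one moves to the left by `l / 2` in every step.
-/

set_option autoImplicit false

namespace Pool.Agent.Results.MP_1d384c_nt.FewExceptionalIntegers

open NumberField IsDedekindDomain Filter Topology Classical
open Pool.Agent.TH958.BV (cone)
open Pool.Agent.W5h26.AV
open Pool.Agent.W5h26.ML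
open Pool.Agent.W5h26.OS (Out free_upper free_lower order_upper order_lower grow_free_upper
  grow_free_lower grow_upper grow_lower)
open Pool.Agent.H921R2.TatePole (nm)

section defs

variable {K : Type} [Field K] [NumberField K] {n : ℕ}

/-- The residue field of the prime `v`. -/
noncomputable instance residueField (v : HeightOneSpectrum (𝓞 K)) : Field (𝓞 K ⧸ v.asIdeal) :=
  Pool.Agent.R409.RA.fieldQuot v

/-- The number of the points over the residue field of `v` of the projective scheme `A` defined by the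
homogeneous polynomials `X` with coefficients in the integers of `K`. -/
noncomputable def points (X : Set (MvPolynomial (Fin n) (𝓞 K))) (v : HeightOneSpectrum (𝓞 K)) : ℝ :=
  (cone X (Ideal.Quotient.mk v.asIdeal) : ℝ) / ((Ideal.absNorm v.asIdeal : ℝ) - 1)

/-- `α_1, …, α_{2g}` are the eigenvalues of the geometric Frobenius at the prime `v` on the first
cohomology of the abelian variety `A` of dimension `g` defined by `X`: they are the zeros of a
polynomial with integral coefficients, of absolute value `q_v^{1/2}`, and for every finite extension `κ`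
of the residue field of `v`, of degree `e`, the number of the points of `A` with coordinates in `κ` is
`∏ (1 - α_j^e)`. By Weil this holds at all primes of good reduction. -/
def IsFrobenius (X : Set (MvPolynomial (Fin n) (𝓞 K))) (g : ℕ) (v : HeightOneSpectrum (𝓞 K))
    (α : Fin (2 * g) → ℂ) : Prop :=
  (∃ P : Polynomial ℤ, P.map (Int.castRingHom ℂ) = ∏ j, (Polynomial.X - Polynomial.C (α j))) ∧
    (∀ j, ‖α j‖ = √(Ideal.absNorm v.asIdeal)) ∧
    ∀ (κ : Type) [Field κ] [Finite κ] (φ : 𝓞 K →+* κ) (e : ℕ), RingHom.ker φ = v.asIdeal →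
      Nat.card κ = Ideal.absNorm v.asIdeal ^ e →
      (cone X φ : ℂ) = ((Ideal.absNorm v.asIdeal : ℂ) ^ e - 1) * ∏ j, (1 - α j ^ e)

/-- `α_{v,1}, …, α_{v,2g}` are the parameters of the Euler factors of `L(A, s)`: outside the finite set
`S` of primes they are the eigenvalues of Frobenius, and at the primes in `S` any numbers of absolute
value at most `q_v^{1/2}` (the eigenvalues of Frobenius on the inertia invariants, completed by
zeros). -/
def IsParameter (X : Set (MvPolynomial (Fin n) (𝓞 K))) (g : ℕ)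
    (S : Finset (HeightOneSpectrum (𝓞 K))) (α : HeightOneSpectrum (𝓞 K) → Fin (2 * g) → ℂ) : Prop :=
  (∀ v ∉ S, IsFrobenius X g v (α v)) ∧ ∀ v ∈ S, ∀ j, ‖α v j‖ ≤ √(Ideal.absNorm v.asIdeal)

/-- The L-function `L(A, s) = ∏_v ∏_j (1 - α_{v,j} q_v^{-s})⁻¹`. -/
noncomputable def LFun {N : ℕ} (α : HeightOneSpectrum (𝓞 K) → Fin N → ℂ) (s : ℂ) : ℂ :=
  ∏' v : HeightOneSpectrum (𝓞 K), ∏ j, (1 - α v j * (Ideal.absNorm v.asIdeal : ℂ) ^ (-s))⁻¹

/-- `F` is holomorphic for `Re s > 1` and at the point `1`, and it is the L-function for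
`Re s > 3/2`. -/
def IsContinuation {N : ℕ} (α : HeightOneSpectrum (𝓞 K) → Fin N → ℂ) (F : ℂ → ℂ) : Prop :=
  (∀ s : ℂ, 1 < s.re → DifferentiableAt ℂ F s) ∧ AnalyticAt ℂ F 1 ∧
    ∀ s : ℂ, 3 / 2 < s.re → F s = LFun α s

/-- `F` is holomorphic and of polynomial growth in a half-plane `Re s > 1 - η`. -/
def PolynomialGrowth (F : ℂ → ℂ) : Prop :=
  ∃ (η C : ℝ) (κ : ℕ), 0 < η ∧ (∀ s : ℂ, 1 - η < s.re → DifferentiableAt ℂ F s) ∧
    ∀ s : ℂ, 1 - η < s.re → ‖F s‖ ≤ C * (1 + ‖s‖) ^ κ

/-- The product `P(x)` of the `#A(k_v) / q_v ^ g` over the primes `v` outside `S` with `q_v ≤ x`. -/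
noncomputable def product (X : Set (MvPolynomial (Fin n) (𝓞 K))) (g : ℕ)
    (S : Finset (HeightOneSpectrum (𝓞 K))) (x : ℕ) : ℝ :=
  ∏ᶠ (v : HeightOneSpectrum (𝓞 K)) (_ : v ∉ S ∧ Ideal.absNorm v.asIdeal ≤ x),
    points X v / (Ideal.absNorm v.asIdeal : ℝ) ^ g

/-- `A(m)` holds for all but at most `x ^ (1 - l)` of the integers `m` in `[x, 2 x]`, for all large
`x`. -/
def Almost (l : ℝ) (A : ℕ → Prop) : Prop :=
  ∀ᶠ x : ℕ in atTop, ({m : ℕ | x ≤ m ∧ m ≤ 2 * x ∧ ¬ A m}.ncard : ℝ) ≤ (x : ℝ) ^ (1 - l)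

/-- `F` has no zeros with `Re s > σ`. -/
def NoZeros (F : ℂ → ℂ) (σ : ℝ) : Prop := ∀ s : ℂ, σ < s.re → F s ≠ 0

/-- `F` has no real zeros `x > σ`. -/
def NoRealZeros (F : ℂ → ℂ) (σ : ℝ) : Prop := ∀ x : ℝ, σ < x → F x ≠ 0

/-- An upper bound `log P(m) ≤ m ^ (θ + ε)` outside an exceptional set excludes zeros with
`Re s > 1 + Θ`, and so does a lower bound if there are no real zeros. -/
def ZeroFree (P : ℕ → ℝ) (F : ℂ → ℂ) (l θ Θ : ℝ) : Prop :=
  ((∀ ε : ℝ, 0 < ε → Almost l fun m => Real.log (P m) ≤ (m : ℝ) ^ (θ + ε)) →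
    NoZeros F (1 + Θ)) ∧
  ((∀ ε : ℝ, 0 < ε → Almost l fun m => -(m : ℝ) ^ (θ + ε) ≤ Real.log (P m)) →
    NoRealZeros F (1 + Θ) → NoZeros F (1 + Θ))

/-- An upper bound `P(m) ≤ C (log m) ^ ρ` outside an exceptional set implies the Riemann hypothesis
and `r ≤ ρ`; a lower bound implies the Riemann hypothesis and `r ≥ ρ`, if there are no real
zeros. -/
def OrderLaw (P : ℕ → ℝ) (F : ℂ → ℂ) (r : ℕ) (l : ℝ) : Prop :=
  ∀ ρ C : ℝ, 0 < C →
    ((Almost l fun m => P m ≤ C * Real.log m ^ ρ) → NoZeros F 1 ∧ (r : ℝ) ≤ ρ) ∧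
    ((Almost l fun m => C * Real.log m ^ ρ ≤ P m) → NoRealZeros F 1 → NoZeros F 1 ∧ ρ ≤ r)

end defs

section bridge

variable {K : Type} [Field K] [NumberField K] {n g : ℕ} {X : Set (MvPolynomial (Fin n) (𝓞 K))}
  {S : Finset (HeightOneSpectrum (𝓞 K))} {α : HeightOneSpectrum (𝓞 K) → Fin (2 * g) → ℂ}
  {F : ℂ → ℂ}

theorem par (hα : IsParameter X g S α) : Par S α where
  pol := fun v hv => (hα.1 v hv).1
  nrm := fun v hv => (hα.1 v hv).2.1
  bad := fun v hv => hα.2 v hv

theorem out_of {l : ℝ} {A : ℕ → Prop} (h : Almost l A) : Out l A := by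
  filter_upwards [h] with x hx
  have h1 : {m : ℕ | x ≤ m ∧ m ≤ 2 * x ∧ ¬ A m} =
      ((Finset.Icc x (2 * x)).filter fun m => ¬ A m : Finset ℕ) := by
    ext m
    simp only [Set.mem_ofPred_eq, Finset.coe_filter, Finset.mem_Icc, and_assoc]
  rw [h1, Set.ncard_coe_finset] at hx
  exact hx

/-- the local factor and the numbers of points -/
theorem local_eq (hα : IsParameter X g S α) (v : {v // v ∉ S}) :
    0 < points X v.1 / (Ideal.absNorm v.1.asIdeal : ℝ) ^ g ∧
      Pool.Agent.TH942.ES.cv (NS S) (al S α) v =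
        Real.log (points X v.1 / (Ideal.absNorm v.1.asIdeal : ℝ) ^ g) := by
  obtain ⟨hP, hn, hc⟩ := hα.1 v.1 v.2
  have h2 : (2 : ℝ) ≤ Ideal.absNorm v.1.asIdeal := nm_two v.1
  have : Finite (𝓞 K ⧸ v.1.asIdeal) := Pool.Agent.R409.RA.finiteQuot v.1
  have h3 := hc (𝓞 K ⧸ v.1.asIdeal) (Ideal.Quotient.mk v.1.asIdeal) 1 (Ideal.mk_ker)
    (by rw [pow_one]; rfl)
  simp only [pow_one] at h3
  have h4 : ((points X v.1 : ℝ) : ℂ) = ∏ j, (1 - α v.1 j) := by
    unfold points
    have h5 : ((Ideal.absNorm v.1.asIdeal : ℂ) - 1) ≠ 0 := by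
      have : ((Ideal.absNorm v.1.asIdeal : ℝ) - 1) ≠ 0 := by linarith
      exact_mod_cast this
    push_cast
    rw [h3]
    field_simp
  have h6 : 0 ≤ points X v.1 := by
    unfold points
    exact div_nonneg (Nat.cast_nonneg _) (by linarith)
  have h7 := Pool.Agent.R409.RA.log_points (by linarith) hn hP h6 h4
  rw [pow_mul, Real.sq_sqrt (by linarith)] at h7
  have h8 : points X v.1 ≠ 0 := by
    intro h0
    rw [h0, Complex.ofReal_zero] at h4
    obtain ⟨j, -, hj⟩ := Finset.prod_eq_zero_iff.1 h4.symm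
    have h9 := hn j
    rw [← sub_eq_zero.1 hj, norm_one] at h9
    have h10 : (1 : ℝ) < √(Ideal.absNorm v.1.asIdeal) := by
      rw [Real.lt_sqrt (by norm_num)]
      linarith
    linarith
  refine ⟨div_pos (lt_of_le_of_ne h6 h8.symm) (by positivity), ?_⟩
  unfold Pool.Agent.TH942.ES.cv
  simp only [zv_al]
  have h9 : ∑ i, Complex.log (1 - α v.1 i / ((nm v.1 : ℝ) : ℂ)) =
      ((Real.log (points X v.1 / (Ideal.absNorm v.1.asIdeal : ℝ) ^ g) : ℝ) : ℂ) := h7.symm
  rw [h9, Complex.ofReal_re]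

/-- the product and its logarithm -/
theorem product_eq (hα : IsParameter X g S α) (x : ℕ) :
    0 < product X g S x ∧ Real.log (product X g S x) = LP (NS S) (al S α) x := by
  have E := par_sys (par hα)
  have hfin := E.fin_le (x : ℝ)
  have hS : {v : HeightOneSpectrum (𝓞 K) | v ∉ S ∧ Ideal.absNorm v.asIdeal ≤ x} =
      Subtype.val '' {v : {v // v ∉ S} | (NS S v : ℝ) ≤ x} := by
    ext v
    constructor
    · rintro ⟨h1, h2⟩
      exact ⟨⟨v, h1⟩, show ((nm v : ℕ) : ℝ) ≤ x by exact_mod_cast h2, rfl⟩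
    · rintro ⟨w, h1, rfl⟩
      have h2 : ((nm w.1 : ℕ) : ℝ) ≤ x := h1
      exact ⟨w.2, by exact_mod_cast h2⟩
  have hSf : {v : HeightOneSpectrum (𝓞 K) | v ∉ S ∧ Ideal.absNorm v.asIdeal ≤ x}.Finite := by
    rw [hS]
    exact hfin.image _
  have e1 : product X g S x = ∏ v ∈ hSf.toFinset, (points X v / (Ideal.absNorm v.asIdeal : ℝ) ^ g) :=
    finprod_mem_eq_finite_toFinset_prod
      (fun v : HeightOneSpectrum (𝓞 K) => points X v / (Ideal.absNorm v.asIdeal : ℝ) ^ g) hSf
  have e2 : hSf.toFinset = hfin.toFinset.map ⟨Subtype.val, Subtype.val_injective⟩ := by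
    ext v
    simp only [Set.Finite.mem_toFinset, Finset.mem_map, Function.Embedding.coeFn_mk]
    rw [hS]
    rfl
  rw [e1, e2, Finset.prod_map]
  constructor
  · exact Finset.prod_pos fun v _ => (local_eq hα v).1
  · rw [Real.log_prod, lp_eq E]
    · refine Finset.sum_congr rfl fun v _ => ?_
      rw [(local_eq hα v).2]
      rfl
    · intro v _
      exact (local_eq hα v).1.ne'

theorem zero_free (hα : IsParameter X g S α) {l θ Θ : ℝ} (hΘ : 0 ≤ Θ)
    (h1 : (∀ ε : ℝ, 0 < ε → Out l fun m => LP (NS S) (al S α) m ≤ (m : ℝ) ^ (θ + ε)) →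
      ∀ s : ℂ, Θ < s.re → GS S α F s ≠ 0)
    (h2 : (∀ ε : ℝ, 0 < ε → Out l fun m => -(m : ℝ) ^ (θ + ε) ≤ LP (NS S) (al S α) m) →
      (∀ x : ℝ, Θ < x → GS S α F x ≠ 0) → ∀ s : ℂ, Θ < s.re → GS S α F s ≠ 0) :
    ZeroFree (product X g S) F l θ Θ := by
  refine ⟨fun h => ?_, fun h hr => ?_⟩
  · refine (gs_zero (par hα) hΘ).1 (h1 fun ε hε => ?_)
    have h3 := out_of (h ε hε)
    simp only [(product_eq hα _).2] at h3
    exact h3
  · refine (gs_zero (par hα) hΘ).1 (h2 (fun ε hε => ?_) (gs_real (par hα) hΘ hr))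
    have h3 := out_of (h ε hε)
    simp only [(product_eq hα _).2] at h3
    exact h3

theorem order_law (hα : IsParameter X g S α) {r : ℕ} (hr : analyticOrderAt (GS S α F) 0 = r)
    {l : ℝ}
    (h1 : ∀ ρ q : ℝ, (Out l fun m => LP (NS S) (al S α) m ≤ ρ * Real.log (Real.log m) + q) →
      (∀ s : ℂ, 0 < s.re → GS S α F s ≠ 0) ∧
        ∀ p : ℕ, analyticOrderAt (GS S α F) 0 = p → (p : ℝ) ≤ (0 : ℕ) + ρ)
    (h2 : ∀ ρ q : ℝ, (Out l fun m => ρ * Real.log (Real.log m) - q ≤ LP (NS S) (al S α) m) →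
      (∀ x : ℝ, 0 < x → GS S α F x ≠ 0) → (∀ s : ℂ, 0 < s.re → GS S α F s ≠ 0) ∧
        ∀ p : ℕ, analyticOrderAt (GS S α F) 0 = p → ((0 : ℕ) : ℝ) + ρ ≤ p) :
    OrderLaw (product X g S) F r l := by
  have hlog : ∀ m : ℕ, 3 ≤ m → 0 < Real.log m := fun m hm => Real.log_pos (by
    have : (3 : ℝ) ≤ m := by exact_mod_cast hm
    linarith)
  have hlogC : ∀ (ρ C : ℝ) (m : ℕ), 0 < C → 3 ≤ m →
      Real.log (C * Real.log m ^ ρ) = Real.log C + ρ * Real.log (Real.log m) := by
    intro ρ C m hC hm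
    have h3 := hlog m hm
    rw [Real.log_mul hC.ne' (by positivity), Real.log_rpow h3]
  have hz := gs_zero (F := F) (par hα) (le_refl (0 : ℝ))
  rw [add_zero] at hz
  intro ρ C hC
  constructor
  · intro h
    obtain ⟨h3, h4⟩ := h1 ρ (Real.log C) ((out_of h).mono (by
      filter_upwards [eventually_ge_atTop 3] with m hm h5
      obtain ⟨h6, h7⟩ := product_eq hα m
      have h8 := Real.log_le_log h6 h5
      rw [h7, hlogC ρ C m hC hm] at h8
      linarith))
    refine ⟨hz.1 h3, ?_⟩
    have h5 := h4 r hr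
    rw [Nat.cast_zero, zero_add] at h5
    exact h5
  · intro h hreal
    obtain ⟨h3, h4⟩ := h2 ρ (-Real.log C) ((out_of h).mono (by
      filter_upwards [eventually_ge_atTop 3] with m hm h5
      obtain ⟨h6, h7⟩ := product_eq hα m
      have h9 := hlog m hm
      have h8 := Real.log_le_log (by positivity) h5
      rw [h7, hlogC ρ C m hC hm] at h8
      linarith)) (gs_real (par hα) le_rfl fun x hx => hreal x (by linarith))
    refine ⟨hz.1 h3, ?_⟩
    have h5 := h4 r hr
    rw [Nat.cast_zero, zero_add] at h5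
    exact h5

end bridge

/-- **One-sided bounds outside few integers.** Let `A` be an abelian variety of dimension `g` over a
number field `K`, defined by the homogeneous polynomials `X`, `S` a finite set of primes of `K` which
contains the primes of bad reduction, `F` the L-function of `A`, holomorphic for `Re s > 1` and at
`s = 1`, where it has the order `r`, and `P(m)` the product of the `#A(k_v) / q_v ^ g` over the primes
outside `S` with `q_v ≤ m`. Then

* for all `l, θ ≥ 0`: if `log P(m) ≤ m ^ (θ + ε)` for every `ε > 0`, for all but at most `x ^ (1 - l)` of the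
  integers in `[x, 2 x]`, then `F` has no zeros with `Re s > 1 + max(θ, 1/2 - 2 l)`; and the same for
  `log P(m) ≥ - m ^ (θ + ε)` if there are no real zeros in this half-plane;
* for `l > 1/4` and all real `ρ` and `C > 0`: if `P(m) ≤ C (log m) ^ ρ` with exceptions as before, then `F`
  has no zeros with `Re s > 1`, and `r ≤ ρ`; if `P(m) ≥ C (log m) ^ ρ` with exceptions as before, and if
  there are no real zeros greater than `1`, then `F` has no zeros with `Re s > 1`, and `r ≥ ρ`;
* if `F` is of polynomial growth in a half-plane `Re s > 1 - η`, then both assertions hold for all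
  `l > 0`, with `θ` in place of `max(θ, 1/2 - 2 l)`. -/
theorem result (K : Type) [Field K] [NumberField K] (n g : ℕ)
    (X : Set (MvPolynomial (Fin n) (𝓞 K))) (S : Finset (HeightOneSpectrum (𝓞 K)))
    (α : HeightOneSpectrum (𝓞 K) → Fin (2 * g) → ℂ) (hα : IsParameter X g S α) (F : ℂ → ℂ)
    (hF : IsContinuation α F) (r : ℕ) (hr : analyticOrderAt F 1 = r) :
    (∀ l θ : ℝ, 0 ≤ l → 0 ≤ θ → ZeroFree (product X g S) F l θ (max θ (1 / 2 - 2 * l))) ∧
    (∀ l : ℝ, 1 / 4 < l → OrderLaw (product X g S) F r l) ∧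
    (PolynomialGrowth F → ∀ l : ℝ, 0 < l →
      (∀ θ : ℝ, 0 ≤ θ → ZeroFree (product X g S) F l θ θ) ∧
      OrderLaw (product X g S) F r l) := by
  obtain ⟨hF1, hF2, hF3⟩ := hF
  have hp := par hα
  have hL : IsL α F := ⟨hF3⟩
  have H := av_mh hp hL hF1 hF2
  have hD := fib S
  have hr' := gs_order hp hF2 hr
  refine ⟨fun l θ hl hθ => ?_, fun l hl => ?_, fun hg l hl => ⟨fun θ hθ => ?_, ?_⟩⟩
  · exact zero_free hα (hθ.trans (le_max_left _ _)) (fun h => free_upper H hD hl hθ h)
      fun h hreal => free_lower H hD hl hθ h hreal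
  · exact order_law hα hr' (fun ρ q h => order_upper H hD hl h)
      fun ρ q h hreal => order_lower H hD hl h hreal
  · obtain ⟨η, C, κ, hη, h1, h2⟩ := hg
    have H' := av_mc hp hL hη h1 h2
    exact zero_free hα hθ (fun h => grow_free_upper H' hl hθ h)
      fun h hreal => grow_free_lower H' hl hθ h hreal
  · obtain ⟨η, C, κ, hη, h1, h2⟩ := hg
    have H' := av_mc hp hL hη h1 h2
    exact order_law hα hr' (fun ρ q h => grow_upper H' hl h)
      fun ρ q h hreal => grow_lower H' hl h hreal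

end Pool.Agent.Results.MP_1d384c_nt.FewExceptionalIntegers
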