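import Pool.Agent.W5h26.AV.Sys
import Pool.Agent.W5h24.SP.Forward

/-!
# The products of Birch and Swinnerton-Dyer at sparse sets of integers, for abelian varieties over
number fields

Let `A` be an abelian variety of dimension `g` over a number field `K`, `F` its L-function, of
polynomial growth in a half-plane `Re s > 1 - η`, and `P(n) = ∏ #A(k_v) / q_v ^ g` over the primes of good
reduction with `q_v ≤ n`. By a theorem of Goldfeld (Kuo and Murty, Conrad, Sheth in general) an
asymptotic formula `P(n) ~ C (log n) ^ ρ` for all `n` implies the Riemann hypothesis for `F` and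
`ρ = ord_{s=1} F`. Here one one-sided bound `P(m) ≤ C (log m) ^ ρ` is assumed, and only at a sparse set
of integers `m`: the `k`-th powers, for any fixed `k`, or any sequence with a member in each
interval `[x, x + x ^ (1 - l)]`, with `l > 0` arbitrarily small. Nothing is assumed for the other
integers. We say that `A(m)` holds at sampled integers, if for some `l > 0` each of these intervals
contains an `m` with `A(m)`. Then

* for `θ ≥ 0`: there are no zeros with `Re s > 1 + θ` if and only if for all `ε > 0` the bound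
  `log P(m) ≤ m ^ (θ + ε)` holds at sampled integers, and if and only if for all `ε > 0` the bound
  `|log P(m)| ≤ m ^ (θ + ε)` holds for all but few integers (at most `x ^ (1 - l)` in `[x, 2 x]`); and the
  same with `-m ^ (θ + ε) ≤ log P(m)` at sampled integers, if there are no real zeros in this
  half-plane;
* `P(m) ≤ C (log m) ^ ρ` at sampled integers implies that there are no zeros with `Re s > 1`, and
  `ord_{s=1} F ≤ ρ`; and `P(m) ≥ C (log m) ^ ρ` at sampled integers implies the same with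
  `ord_{s=1} F ≥ ρ`, if there are no real zeros greater than `1`. So the two bounds with
  `ρ = rank A(K)`, each at its own sampled integers, imply `ord_{s=1} F = rank A(K)`.

So a zero with `Re s > 1 + θ` forces, for some `ε > 0` and every `l > 0`, the inequality
`log P(m) > m ^ (θ + ε)` for all integers `m` in infinitely many intervals `[x, x + x ^ (1 - l)]`, and
`ord_{s=1} F > ρ` forces `P(m) > C (log m) ^ ρ` in the same way.

A trivial bound for the variation of `P` would only allow `l > 1/2`.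

Proof. Let `S(u)` be the sum over the prime powers `≤ e^u`. If there are no zeros with
`Re s > 1 + x₁`, then the theorem of Plancherel on the line `Re s = 1 + x`, `x > x₁`, gives
`∫ |S(u + w) - S(u)|² e^{-2xu} du ≪ w ^ (1 - ε)` for `0 < w ≤ 1`. A chaining argument over dyadic `w`
turns this into a bound for all the differences at distance `e^{-lu}` at the same time, outside a set
of `u` the measure of which decreases exponentially: there `S(u) - S(g) ≪ e^{(x₁ - l/2 + ε) u}` for some
sampled `g`. So the sampled bound holds for almost all `u` up to `e^{(x₁ - l/2 + ε) u}`, and Landau's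
lemma gives the half-plane `Re s > 1 + max (θ, x₁ - l/2)`. Iterate.
-/

set_option autoImplicit false

namespace Pool.Agent.Results.MP_1d384c_nt.SparseSamples

open NumberField IsDedekindDomain Filter Topology Classical
open Pool.Agent.TH958.BV (cone)
open Pool.Agent.W5h26.AV
open Pool.Agent.W5h26.ML
open Pool.Agent.H921R2.TatePole (nm)
open Pool.Agent.W5h24.SP (free_upper free_lower order_upper order_lower few_of_free)

section defs

variable {K : Type} [Field K] [NumberField K] {n : ℕ}

/-- The residue field of the prime `v`. -/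
noncomputable instance residueField (v : HeightOneSpectrum (𝓞 K)) : Field (𝓞 K ⧸ v.asIdeal) :=
  Pool.Agent.R409.RA.fieldQuot v

/-- The number of the points over the residue field of `v` of the projective scheme `A` defined by the
homogeneous polynomials `X` with coefficients in the integers of `K`. -/
noncomputable def points (X : Set (MvPolynomial (Fin n) (𝓞 K))) (v : HeightOneSpectrum (𝓞 K)) : ℝ :=
  (cone X (Ideal.Quotient.mk v.asIdeal) : ℝ) / ((Ideal.absNorm v.asIdeal : ℝ) - 1)

/-- `α_1, …, α_{2g}` are the eigenvalues of the geometric Frobenius at the prime `v` on the first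
cohomology of the abelian variety `A` of dimension `g` defined by `X`: they are the zeros of a
polynomial with integral coefficients, of absolute value `q_v^{1/2}`, and for every finite extension `κ`
of the residue field of `v`, of degree `e`, the number of the points of `A` with coordinates in `κ` is
`∏ (1 - α_j^e)`. By Weil this holds at all primes of good reduction. -/
def IsFrobenius (X : Set (MvPolynomial (Fin n) (𝓞 K))) (g : ℕ) (v : HeightOneSpectrum (𝓞 K))
    (α : Fin (2 * g) → ℂ) : Prop :=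
  (∃ P : Polynomial ℤ, P.map (Int.castRingHom ℂ) = ∏ j, (Polynomial.X - Polynomial.C (α j))) ∧
    (∀ j, ‖α j‖ = √(Ideal.absNorm v.asIdeal)) ∧
    ∀ (κ : Type) [Field κ] [Finite κ] (φ : 𝓞 K →+* κ) (e : ℕ), RingHom.ker φ = v.asIdeal →
      Nat.card κ = Ideal.absNorm v.asIdeal ^ e →
      (cone X φ : ℂ) = ((Ideal.absNorm v.asIdeal : ℂ) ^ e - 1) * ∏ j, (1 - α j ^ e)

/-- `α_{v,1}, …, α_{v,2g}` are the parameters of the Euler factors of `L(A, s)`: outside the finite set
`S` of primes they are the eigenvalues of Frobenius, and at the primes in `S` any numbers of absolute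
value at most `q_v^{1/2}` (the eigenvalues of Frobenius on the inertia invariants, completed by
zeros). -/
def IsParameter (X : Set (MvPolynomial (Fin n) (𝓞 K))) (g : ℕ)
    (S : Finset (HeightOneSpectrum (𝓞 K))) (α : HeightOneSpectrum (𝓞 K) → Fin (2 * g) → ℂ) : Prop :=
  (∀ v ∉ S, IsFrobenius X g v (α v)) ∧ ∀ v ∈ S, ∀ j, ‖α v j‖ ≤ √(Ideal.absNorm v.asIdeal)

/-- The L-function `L(A, s) = ∏_v ∏_j (1 - α_{v,j} q_v^{-s})⁻¹`. -/
noncomputable def LFun {N : ℕ} (α : HeightOneSpectrum (𝓞 K) → Fin N → ℂ) (s : ℂ) : ℂ :=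
  ∏' v : HeightOneSpectrum (𝓞 K), ∏ j, (1 - α v j * (Ideal.absNorm v.asIdeal : ℂ) ^ (-s))⁻¹

/-- `F` is holomorphic for `Re s > 1` and at the point `1`, and it is the L-function for
`Re s > 3/2`. -/
def IsContinuation {N : ℕ} (α : HeightOneSpectrum (𝓞 K) → Fin N → ℂ) (F : ℂ → ℂ) : Prop :=
  (∀ s : ℂ, 1 < s.re → DifferentiableAt ℂ F s) ∧ AnalyticAt ℂ F 1 ∧
    ∀ s : ℂ, 3 / 2 < s.re → F s = LFun α s

/-- `F` is holomorphic and of polynomial growth in a half-plane `Re s > 1 - η`. -/
def PolynomialGrowth (F : ℂ → ℂ) : Prop :=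
  ∃ (η C : ℝ) (κ : ℕ), 0 < η ∧ (∀ s : ℂ, 1 - η < s.re → DifferentiableAt ℂ F s) ∧
    ∀ s : ℂ, 1 - η < s.re → ‖F s‖ ≤ C * (1 + ‖s‖) ^ κ

/-- The product `P(x)` of the `#A(k_v) / q_v ^ g` over the primes `v` outside `S` with `q_v ≤ x`. -/
noncomputable def product (X : Set (MvPolynomial (Fin n) (𝓞 K))) (g : ℕ)
    (S : Finset (HeightOneSpectrum (𝓞 K))) (x : ℕ) : ℝ :=
  ∏ᶠ (v : HeightOneSpectrum (𝓞 K)) (_ : v ∉ S ∧ Ideal.absNorm v.asIdeal ≤ x),
    points X v / (Ideal.absNorm v.asIdeal : ℝ) ^ g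

/-- `A(m)` holds at sampled integers: for some `l > 0` and all sufficiently large `x`, it holds for some
integer `m` with `x ≤ m ≤ x + x ^ (1 - l)`. -/
def Sampled (A : ℕ → Prop) : Prop :=
  ∃ l : ℝ, 0 < l ∧ ∀ᶠ x : ℕ in atTop, ∃ m : ℕ, x ≤ m ∧ (m : ℝ) ≤ x + (x : ℝ) ^ (1 - l) ∧ A m

/-- `A(m)` holds for all but few integers: for some `l > 0` and all sufficiently large `x`, at most
`x ^ (1 - l)` of the integers `m` in `[x, 2 x]` do not have it. -/
def Almost (A : ℕ → Prop) : Prop :=
  ∃ l : ℝ, 0 < l ∧ ∀ᶠ x : ℕ in atTop,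
    ({m : ℕ | x ≤ m ∧ m ≤ 2 * x ∧ ¬ A m}.ncard : ℝ) ≤ (x : ℝ) ^ (1 - l)

/-- `F` has no zeros with `Re s > σ`. -/
def NoZeros (F : ℂ → ℂ) (σ : ℝ) : Prop := ∀ s : ℂ, σ < s.re → F s ≠ 0

/-- `F` has no real zeros `x > σ`. -/
def NoRealZeros (F : ℂ → ℂ) (σ : ℝ) : Prop := ∀ x : ℝ, σ < x → F x ≠ 0

end defs

section bridge

variable {K : Type} [Field K] [NumberField K] {n g : ℕ} {X : Set (MvPolynomial (Fin n) (𝓞 K))}
  {S : Finset (HeightOneSpectrum (𝓞 K))} {α : HeightOneSpectrum (𝓞 K) → Fin (2 * g) → ℂ}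
  {F : ℂ → ℂ}

theorem par (hα : IsParameter X g S α) : Par S α where
  pol := fun v hv => (hα.1 v hv).1
  nrm := fun v hv => (hα.1 v hv).2.1
  bad := fun v hv => hα.2 v hv

/-- the local factor and the numbers of points -/
theorem local_eq (hα : IsParameter X g S α) (v : {v // v ∉ S}) :
    0 < points X v.1 / (Ideal.absNorm v.1.asIdeal : ℝ) ^ g ∧
      Pool.Agent.TH942.ES.cv (NS S) (al S α) v =
        Real.log (points X v.1 / (Ideal.absNorm v.1.asIdeal : ℝ) ^ g) := by
  obtain ⟨hP, hn, hc⟩ := hα.1 v.1 v.2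
  have h2 : (2 : ℝ) ≤ Ideal.absNorm v.1.asIdeal := nm_two v.1
  have : Finite (𝓞 K ⧸ v.1.asIdeal) := Pool.Agent.R409.RA.finiteQuot v.1
  have h3 := hc (𝓞 K ⧸ v.1.asIdeal) (Ideal.Quotient.mk v.1.asIdeal) 1 (Ideal.mk_ker)
    (by rw [pow_one]; rfl)
  simp only [pow_one] at h3
  have h4 : ((points X v.1 : ℝ) : ℂ) = ∏ j, (1 - α v.1 j) := by
    unfold points
    have h5 : ((Ideal.absNorm v.1.asIdeal : ℂ) - 1) ≠ 0 := by
      have : ((Ideal.absNorm v.1.asIdeal : ℝ) - 1) ≠ 0 := by linarith
      exact_mod_cast this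
    push_cast
    rw [h3]
    field_simp
  have h6 : 0 ≤ points X v.1 := by
    unfold points
    exact div_nonneg (Nat.cast_nonneg _) (by linarith)
  have h7 := Pool.Agent.R409.RA.log_points (by linarith) hn hP h6 h4
  rw [pow_mul, Real.sq_sqrt (by linarith)] at h7
  have h8 : points X v.1 ≠ 0 := by
    intro h0
    rw [h0, Complex.ofReal_zero] at h4
    obtain ⟨j, -, hj⟩ := Finset.prod_eq_zero_iff.1 h4.symm
    have h9 := hn j
    rw [← sub_eq_zero.1 hj, norm_one] at h9
    have h10 : (1 : ℝ) < √(Ideal.absNorm v.1.asIdeal) := by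
      rw [Real.lt_sqrt (by norm_num)]
      linarith
    linarith
  refine ⟨div_pos (lt_of_le_of_ne h6 h8.symm) (by positivity), ?_⟩
  unfold Pool.Agent.TH942.ES.cv
  simp only [zv_al]
  have h9 : ∑ i, Complex.log (1 - α v.1 i / ((nm v.1 : ℝ) : ℂ)) =
      ((Real.log (points X v.1 / (Ideal.absNorm v.1.asIdeal : ℝ) ^ g) : ℝ) : ℂ) := h7.symm
  rw [h9, Complex.ofReal_re]

/-- the product and its logarithm -/
theorem product_eq (hα : IsParameter X g S α) (x : ℕ) :
    0 < product X g S x ∧ Real.log (product X g S x) = LP (NS S) (al S α) x := by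
  have E := par_sys (par hα)
  have hfin := E.fin_le (x : ℝ)
  have hS : {v : HeightOneSpectrum (𝓞 K) | v ∉ S ∧ Ideal.absNorm v.asIdeal ≤ x} =
      Subtype.val '' {v : {v // v ∉ S} | (NS S v : ℝ) ≤ x} := by
    ext v
    constructor
    · rintro ⟨h1, h2⟩
      exact ⟨⟨v, h1⟩, show ((nm v : ℕ) : ℝ) ≤ x by exact_mod_cast h2, rfl⟩
    · rintro ⟨w, h1, rfl⟩
      have h2 : ((nm w.1 : ℕ) : ℝ) ≤ x := h1
      exact ⟨w.2, by exact_mod_cast h2⟩
  have hSf : {v : HeightOneSpectrum (𝓞 K) | v ∉ S ∧ Ideal.absNorm v.asIdeal ≤ x}.Finite := by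
    rw [hS]
    exact hfin.image _
  have e1 : product X g S x = ∏ v ∈ hSf.toFinset, (points X v / (Ideal.absNorm v.asIdeal : ℝ) ^ g) :=
    finprod_mem_eq_finite_toFinset_prod
      (fun v : HeightOneSpectrum (𝓞 K) => points X v / (Ideal.absNorm v.asIdeal : ℝ) ^ g) hSf
  have e2 : hSf.toFinset = hfin.toFinset.map ⟨Subtype.val, Subtype.val_injective⟩ := by
    ext v
    simp only [Set.Finite.mem_toFinset, Finset.mem_map, Function.Embedding.coeFn_mk]
    rw [hS]
    rfl
  rw [e1, e2, Finset.prod_map]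
  constructor
  · exact Finset.prod_pos fun v _ => (local_eq hα v).1
  · rw [Real.log_prod, lp_eq E]
    · refine Finset.sum_congr rfl fun v _ => ?_
      rw [(local_eq hα v).2]
      rfl
    · intro v _
      exact (local_eq hα v).1.ne'

theorem almost_iff {A : ℕ → Prop} : Almost A ↔ Pool.Agent.W5h26.ES.Few fun m => ¬ A m := by
  have h1 : ∀ x : ℕ, {m : ℕ | x ≤ m ∧ m ≤ 2 * x ∧ ¬ A m} =
      ((Finset.Icc x (2 * x)).filter fun m => ¬ A m : Finset ℕ) := by
    intro x
    ext m
    simp only [Set.mem_ofPred_eq, Finset.coe_filter, Finset.mem_Icc, and_assoc]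
  unfold Almost Pool.Agent.W5h26.ES.Few
  simp only [h1, Set.ncard_coe_finset]
  constructor
  · rintro ⟨l, hl, h⟩
    exact ⟨l, hl, h.mono fun x hx => by convert hx⟩
  · rintro ⟨l, hl, h⟩
    exact ⟨l, hl, h.mono fun x hx => by convert hx⟩

theorem sampled_of_almost {A : ℕ → Prop} (h : Almost A) : Sampled A := by
  obtain ⟨l, hl, h1⟩ := Pool.Agent.W5h24.SP.samples_of_few (almost_iff.1 h)
  refine ⟨l, hl, ?_⟩
  filter_upwards [h1] with x hx
  obtain ⟨m, h2, h3, h4⟩ := hx
  exact ⟨m, h2, h3, not_not.1 h4⟩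

theorem Sampled.mono {A B : ℕ → Prop} (h : Sampled A) (hAB : ∀ m, A m → B m) : Sampled B := by
  obtain ⟨l, hl, h⟩ := h
  exact ⟨l, hl, h.mono fun x ⟨m, h2, h3, h4⟩ => ⟨m, h2, h3, hAB m h4⟩⟩

theorem NoZeros.real {F : ℂ → ℂ} {σ : ℝ} (h : NoZeros F σ) : NoRealZeros F σ :=
  fun x hx => h x (by rwa [Complex.ofReal_re])

lemma log_bound {ρ C : ℝ} (hC : 0 < C) {m : ℕ} (hm : 2 ≤ m) :
    0 < C * Real.log m ^ ρ ∧
      Real.log (C * Real.log m ^ ρ) = Real.log C + ρ * Real.log (Real.log m) := by
  have h1 : 0 < Real.log m := Real.log_pos (by exact_mod_cast hm)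
  have h2 : 0 < Real.log m ^ ρ := Real.rpow_pos_of_pos h1 _
  exact ⟨mul_pos hC h2, by rw [Real.log_mul hC.ne' h2.ne', Real.log_rpow h1]⟩

end bridge

/-- **One-sided bounds at sparse sets of integers.** Let `A` be an abelian variety of dimension `g` over
a number field `K`, defined by the homogeneous polynomials `X`, `S` a finite set of primes of `K` which
contains the primes of bad reduction, `F` the L-function of `A`, of polynomial growth in a half-plane
`Re s > 1 - η`, and `P(m)` the product of the `#A(k_v) / q_v ^ g` over the primes outside `S` with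
`q_v ≤ m`. Then

* for all `θ ≥ 0`: `F` has no zeros with `Re s > 1 + θ` if and only if for all `ε > 0` the bound
  `log P(m) ≤ m ^ (θ + ε)` holds at sampled integers, and if and only if for all `ε > 0` the bound
  `|log P(m)| ≤ m ^ (θ + ε)` holds for all but few integers, and if and only if there are no real zeros
  greater than `1 + θ` and for all `ε > 0` the bound `-m ^ (θ + ε) ≤ log P(m)` holds at sampled integers;
* for all real `ρ` and `C > 0`: if `P(m) ≤ C (log m) ^ ρ` at sampled integers, then `F` has no zeros with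
  `Re s > 1`, and `ord_{s=1} F ≤ ρ`; if `P(m) ≥ C (log m) ^ ρ` at sampled integers, and if there are no
  real zeros greater than `1`, then `F` has no zeros with `Re s > 1`, and `ord_{s=1} F ≥ ρ`;
* every assertion on integers which holds for all large `k`-th powers, holds at sampled integers. -/
theorem result (K : Type) [Field K] [NumberField K] (n g : ℕ)
    (X : Set (MvPolynomial (Fin n) (𝓞 K))) (S : Finset (HeightOneSpectrum (𝓞 K)))
    (α : HeightOneSpectrum (𝓞 K) → Fin (2 * g) → ℂ) (hα : IsParameter X g S α) (F : ℂ → ℂ)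
    (hF : IsContinuation α F) (hgrowth : PolynomialGrowth F) (r : ℕ)
    (hr : analyticOrderAt F 1 = r) :
    (∀ θ : ℝ, 0 ≤ θ →
      (NoZeros F (1 + θ) ↔ ∀ ε : ℝ, 0 < ε →
        Sampled fun m => Real.log (product X g S m) ≤ (m : ℝ) ^ (θ + ε)) ∧
      (NoZeros F (1 + θ) ↔ ∀ ε : ℝ, 0 < ε →
        Almost fun m => |Real.log (product X g S m)| ≤ (m : ℝ) ^ (θ + ε)) ∧
      (NoZeros F (1 + θ) ↔ NoRealZeros F (1 + θ) ∧ ∀ ε : ℝ, 0 < ε →
        Sampled fun m => -(m : ℝ) ^ (θ + ε) ≤ Real.log (product X g S m))) ∧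
    (∀ ρ C : ℝ, 0 < C →
      ((Sampled fun m => product X g S m ≤ C * Real.log m ^ ρ) → NoZeros F 1 ∧ (r : ℝ) ≤ ρ) ∧
      ((Sampled fun m => C * Real.log m ^ ρ ≤ product X g S m) → NoRealZeros F 1 →
        NoZeros F 1 ∧ ρ ≤ r)) ∧
    (∀ (k : ℕ) (A : ℕ → Prop), 1 ≤ k → (∀ᶠ j : ℕ in atTop, A (j ^ k)) → Sampled A) := by
  obtain ⟨hF1, hF2, hF3⟩ := hF
  have hp := par hα
  have hL : IsL α F := ⟨hF3⟩
  obtain ⟨η, C₀, κ, hη, h1, h2⟩ := hgrowth
  have H := av_mc hp hL hη h1 h2
  have hr' := gs_order hp hF2 hr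
  have hlog : ∀ m : ℕ, Real.log (product X g S m) = LP (NS S) (al S α) m := fun m =>
    (product_eq hα m).2
  refine ⟨fun θ hθ => ?_, fun ρ C hC => ⟨fun ⟨l, hl, h⟩ => ?_, fun ⟨l, hl, h⟩ hreal => ?_⟩,
    fun k A hk h => Pool.Agent.W5h24.SP.samples_pow hk h⟩
  · have hfew : NoZeros F (1 + θ) → ∀ ε : ℝ, 0 < ε →
        Almost fun m => |Real.log (product X g S m)| ≤ (m : ℝ) ^ (θ + ε) := by
      intro h ε hε
      rw [almost_iff]
      simp only [hlog, not_le]
      exact few_of_free H hθ ((gs_zero hp hθ).2 h) hε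
    have hup : (∀ ε : ℝ, 0 < ε →
        Sampled fun m => Real.log (product X g S m) ≤ (m : ℝ) ^ (θ + ε)) → NoZeros F (1 + θ) := by
      intro h
      refine (gs_zero hp hθ).1 (free_upper H hθ fun ε hε => ?_)
      have h3 := h ε hε
      simp only [hlog] at h3
      exact h3
    refine ⟨⟨fun h ε hε => (sampled_of_almost (hfew h ε hε)).mono fun m hm =>
      (le_abs_self _).trans hm, hup⟩, ⟨hfew, fun h => hup fun ε hε =>
      (sampled_of_almost (h ε hε)).mono fun m hm => (le_abs_self _).trans hm⟩,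
      ⟨fun h => ⟨h.real, fun ε hε => (sampled_of_almost (hfew h ε hε)).mono fun m hm =>
      (abs_le.1 hm).1⟩, fun h => ?_⟩⟩
    refine (gs_zero hp hθ).1 (free_lower H hθ (fun ε hε => ?_) (gs_real hp hθ h.1))
    have h3 := h.2 ε hε
    simp only [hlog] at h3
    exact h3
  · have hz := gs_zero (F := F) hp (le_refl (0 : ℝ))
    rw [add_zero] at hz
    obtain ⟨h3, h4⟩ := order_upper H (l := l) (ρ := ρ) (q := Real.log C) hl
      (Pool.Agent.W5h24.SP.Samples.mono h (by
        filter_upwards [eventually_ge_atTop 2] with m hm h5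
        have h8 := Real.log_le_log (product_eq hα m).1 h5
        rw [hlog, (log_bound hC hm).2] at h8
        linarith))
    refine ⟨hz.1 h3, ?_⟩
    have h5 := h4 r hr'
    rwa [Nat.cast_zero, zero_add] at h5
  · have hz := gs_zero (F := F) hp (le_refl (0 : ℝ))
    rw [add_zero] at hz
    obtain ⟨h3, h4⟩ := order_lower H (l := l) (ρ := ρ) (q := -Real.log C) hl
      (Pool.Agent.W5h24.SP.Samples.mono h (by
        filter_upwards [eventually_ge_atTop 2] with m hm h5
        have h8 := Real.log_le_log (log_bound hC hm).1 h5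
        rw [hlog, (log_bound hC hm).2] at h8
        linarith)) (gs_real hp le_rfl fun x hx => hreal x (by linarith))
    refine ⟨hz.1 h3, ?_⟩
    have h5 := h4 r hr'
    rwa [Nat.cast_zero, zero_add] at h5

end Pool.Agent.Results.MP_1d384c_nt.SparseSamples
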